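import Mathlib

set_option autoImplicit false

/-!
# Translative covering of the unit square by rectangles of total area 3

Every countable (finite or infinite) family of axis-parallel rectangles with sides at most `1` and
total area at least `3` covers the unit square by translations only.
-/

namespace Pool.Agent.Results.MP_6800d9_co.MoserCovering

open MeasureTheory Set
open scoped ENNReal

/-- One-dimensional covering lemma: countably many closed intervals of total length at least `1`
can be translated so as to cover `[0, 1]`, using only those of positive length. -/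
theorem cover_line {κ : Type*} [Countable κ] (l : κ → ℝ) (hl : ∀ k, 0 ≤ l k)
    (h : 1 ≤ ∑' k, ENNReal.ofReal (l k)) :
    ∃ p : κ → ℝ, ∀ y ∈ Icc (0 : ℝ) 1, ∃ k, 0 < l k ∧ p k ≤ y ∧ y ≤ p k + l k := by
  classical
  obtain ⟨e, he⟩ := exists_injective_nat κ
  obtain ⟨k0, hk0⟩ : ∃ k0, 0 < l k0 := by
    by_contra hcon
    push Not at hcon
    have h0 : ∀ k, ENNReal.ofReal (l k) = 0 := fun k => ENNReal.ofReal_of_nonpos (hcon k)
    simp [h0] at h
  let w : ℕ → ℝ := fun m => if hm : ∃ k, e k = m ∧ k ≠ k0 then l hm.choose else 0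
  have hw : ∀ k, k ≠ k0 → w (e k) = l k := by
    intro k hk
    have hm : ∃ k', e k' = e k ∧ k' ≠ k0 := ⟨k, rfl, hk⟩
    have h1 : w (e k) = l hm.choose := dif_pos hm
    rw [h1, he hm.choose_spec.1]
  have hw0 : ∀ m, 0 ≤ w m := by
    intro m
    by_cases hm : ∃ k, e k = m ∧ k ≠ k0
    · have h1 : w m = l hm.choose := dif_pos hm
      rw [h1]; exact hl _
    · have h1 : w m = 0 := dif_neg hm
      rw [h1]
  have hwne : ∀ m, w m ≠ 0 → ∃ k, e k = m ∧ k ≠ k0 := by
    intro m hm
    by_contra hcon
    exact hm (dif_neg hcon)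
  refine ⟨fun k => if k = k0 then 1 - l k0 else ∑ m ∈ Finset.range (e k), w m, ?_⟩
  intro y hy
  by_contra hcon
  push Not at hcon
  have hy1 : y < 1 - l k0 := by
    by_contra hge
    push Not at hge
    have h1 := hcon k0 hk0
    simp only [if_true] at h1
    have := h1 hge
    have := hy.2
    linarith
  have hpart : ∀ n : ℕ, ∑ m ∈ Finset.range n, w m ≤ y := by
    intro n
    induction n with
    | zero => simpa using hy.1
    | succ n ih =>
      rw [Finset.sum_range_succ]
      by_cases hn : w n = 0
      · rw [hn, add_zero]; exact ih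
      · obtain ⟨k, hk, hkk0⟩ := hwne n hn
        have h1 : w n = l k := by rw [← hk]; exact hw k hkk0
        have h2 : 0 < l k := lt_of_le_of_ne (hl k) (by rw [← h1]; exact Ne.symm hn)
        have h3 := hcon k h2
        simp only [if_neg hkk0] at h3
        rw [hk] at h3
        have h4 := h3 ih
        rw [h1]
        exact h4.le
  have hle : ∑' m, ENNReal.ofReal (w m) ≤ ENNReal.ofReal y := by
    rw [ENNReal.tsum_eq_iSup_nat]
    refine iSup_le fun n => ?_
    rw [← ENNReal.ofReal_sum_of_nonneg (fun m _ => hw0 m)]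
    exact ENNReal.ofReal_le_ofReal (hpart n)
  have h5 : ∑' k, ENNReal.ofReal (l k) ≤ ENNReal.ofReal (l k0) + ENNReal.ofReal y := by
    calc ∑' k, ENNReal.ofReal (l k)
        ≤ ∑' k, ((if k = k0 then ENNReal.ofReal (l k0) else 0) + ENNReal.ofReal (w (e k))) := by
          refine ENNReal.tsum_le_tsum fun k => ?_
          by_cases hk : k = k0
          · subst hk
            simp
          · rw [if_neg hk, zero_add, hw k hk]
      _ = ENNReal.ofReal (l k0) + ∑' k, ENNReal.ofReal (w (e k)) := by
          rw [ENNReal.tsum_add, tsum_ite_eq]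
      _ ≤ ENNReal.ofReal (l k0) + ∑' m, ENNReal.ofReal (w m) := by
          gcongr
          exact ENNReal.tsum_comp_le_tsum_of_injective he _
      _ ≤ _ := by gcongr
  have h6 : (1 : ℝ≥0∞) ≤ ENNReal.ofReal (l k0 + y) := by
    rw [ENNReal.ofReal_add (hl k0) hy.1]
    exact h.trans h5
  rw [ENNReal.one_le_ofReal] at h6
  linarith

section Main

variable {ι : Type*} (a b : ι → ℝ) (e : ι → ℕ)

/-- `k` comes before `i` in the order of decreasing heights (ties broken by `e`). -/
def bef (k i : ι) : Prop := b i < b k ∨ (b i = b k ∧ e k < e i)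

theorem bef_trans {i j k : ι} (h1 : bef b e i j) (h2 : bef b e j k) : bef b e i k := by
  rcases h1 with h1 | ⟨h1, h1'⟩ <;> rcases h2 with h2 | ⟨h2, h2'⟩
  · exact Or.inl (h2.trans h1)
  · exact Or.inl (h2 ▸ h1)
  · exact Or.inl (h1 ▸ h2)
  · exact Or.inr ⟨h2.trans h1, h1'.trans h2'⟩

theorem bef_irrefl (i : ι) : ¬ bef b e i i := by
  rintro (h | ⟨_, h⟩) <;> exact lt_irrefl _ h

theorem bef_total (he : Function.Injective e) {i k : ι} (h : i ≠ k) : bef b e i k ∨ bef b e k i := by
  rcases lt_trichotomy (b i) (b k) with h1 | h1 | h1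
  · exact Or.inr (Or.inl h1)
  · rcases lt_trichotomy (e i) (e k) with h2 | h2 | h2
    · exact Or.inl (Or.inr ⟨h1.symm, h2⟩)
    · exact absurd (he h2) h
    · exact Or.inr (Or.inr ⟨h1, h2⟩)
  · exact Or.inl (Or.inl h1)

theorem bef_le {i k : ι} (h : bef b e k i) : b i ≤ b k := by
  rcases h with h | ⟨h, _⟩
  · exact h.le
  · exact h.le

open Classical in
/-- Total width of the rectangles before `i`. -/
noncomputable def X (i : ι) : ℝ≥0∞ := ∑' k, if bef b e k i then ENNReal.ofReal (a k) else 0

open Classical in
theorem X_fin (hb : ∀ i, 0 < b i) (ha : ∀ i, 0 < a i)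
    (hfin : ∑' k, ENNReal.ofReal (a k * b k) ≠ ∞) (i : ι) : X a b e i ≠ ∞ := by
  have h1 : X a b e i ≤ (∑' k, ENNReal.ofReal (a k * b k)) * (ENNReal.ofReal (b i))⁻¹ := by
    rw [← ENNReal.tsum_mul_right]
    refine ENNReal.tsum_le_tsum fun k => ?_
    split_ifs with h
    · have h2 : b i ≤ b k := bef_le b e h
      rw [← div_eq_mul_inv, ENNReal.le_div_iff_mul_le]
      · rw [← ENNReal.ofReal_mul (ha k).le]
        exact ENNReal.ofReal_le_ofReal (mul_le_mul_of_nonneg_left h2 (ha k).le)
      · left
        simpa using hb i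
      · left
        exact ENNReal.ofReal_ne_top
    · exact bot_le
  refine ne_top_of_le_ne_top ?_ h1
  refine ENNReal.mul_ne_top hfin ?_
  rw [Ne, ENNReal.inv_eq_top]
  simpa using hb i

open Classical in
theorem X_add (i : ι) : ∑' k, (if bef b e k i ∨ k = i then ENNReal.ofReal (a k) else 0) =
    X a b e i + ENNReal.ofReal (a i) := by
  have h1 : ∀ k, (if bef b e k i ∨ k = i then ENNReal.ofReal (a k) else 0) =
      (if bef b e k i then ENNReal.ofReal (a k) else 0) +
        (if k = i then ENNReal.ofReal (a i) else 0) := by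
    intro k
    by_cases hk : k = i
    · subst hk
      simp [bef_irrefl]
    · simp [hk]
  rw [tsum_congr h1, ENNReal.tsum_add, tsum_ite_eq]
  rfl

open Classical in
theorem X_le {i k : ι} (h : bef b e k i) : X a b e k + ENNReal.ofReal (a k) ≤ X a b e i := by
  rw [← X_add]
  refine ENNReal.tsum_le_tsum fun m => ?_
  by_cases hm : bef b e m k ∨ m = k
  · rw [if_pos hm, if_pos]
    rcases hm with hm | hm
    · exact bef_trans b e hm h
    · rw [hm]; exact h
  · rw [if_neg hm]
    exact bot_le

/-- **Main theorem**: every countable family of axis-parallel rectangles `a i × b i` with sides at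
most `1` and total area `A ≥ 3` covers the unit square by translations. -/
theorem result {ι : Type*} [Countable ι] (a b : ι → ℝ) (ha : ∀ i, 0 < a i ∧ a i ≤ 1)
    (hb : ∀ i, 0 < b i ∧ b i ≤ 1) (A : ℝ) (hA : 3 ≤ A) (hsum : HasSum (fun i => a i * b i) A) :
    ∃ v : ι → ℝ × ℝ, Icc (0 : ℝ) 1 ×ˢ Icc (0 : ℝ) 1 ⊆
      ⋃ i, Icc (v i).1 ((v i).1 + a i) ×ˢ Icc (v i).2 ((v i).2 + b i) := by
  classical
  obtain ⟨e, he⟩ := exists_injective_nat ι
  have hAsum : ∑' k, ENNReal.ofReal (a k * b k) = ENNReal.ofReal A := by
    rw [← hsum.tsum_eq, ENNReal.ofReal_tsum_of_nonneg _ hsum.summable]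
    intro k
    exact mul_nonneg (ha k).1.le (hb k).1.le
  have hfin : ∑' k, ENNReal.ofReal (a k * b k) ≠ ∞ := by
    rw [hAsum]; exact ENNReal.ofReal_ne_top
  have hXfin := X_fin a b e (fun i => (hb i).1) (fun i => (ha i).1) hfin
  set x : ι → ℝ := fun i => (X a b e i).toReal with hx
  have hx0 : ∀ i, 0 ≤ x i := fun i => ENNReal.toReal_nonneg
  have hxX : ∀ i, ENNReal.ofReal (x i) = X a b e i := fun i => ENNReal.ofReal_toReal (hXfin i)
  have hxle : ∀ i k, bef b e k i → x k + a k ≤ x i := by
    intro i k h
    have h1 := X_le a b e h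
    rw [← hxX, ← hxX, ← ENNReal.ofReal_add (hx0 k) (ha k).1.le] at h1
    exact (ENNReal.ofReal_le_ofReal_iff (hx0 i)).1 h1
  let I : ι → Set ℝ := fun i => Ico (x i) (x i + a i)
  have hIvol : ∀ i, volume (I i) = ENNReal.ofReal (a i) := by
    intro i
    simp [I, Real.volume_Ico]
  have hIdisj : Pairwise (Function.onFun Disjoint I) := by
    intro i k hik
    rw [Function.onFun, Set.disjoint_left]
    intro y hy1 hy2
    rcases bef_total b e he hik with h | h
    · have := hxle k i h
      have h1 := hy1.2
      have h2 := hy2.1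
      linarith
    · have := hxle i k h
      have h1 := hy1.1
      have h2 := hy2.2
      linarith
  have hImeas : ∀ i, MeasurableSet (I i) := fun i => measurableSet_Ico
  -- total overlap with a set
  have hoverlap : ∀ B : Set ℝ, MeasurableSet B → ∑' i, volume (I i ∩ B) ≤ volume B := by
    intro B hB
    rw [← measure_iUnion]
    · exact measure_mono (iUnion_subset fun i => inter_subset_right)
    · intro i k hik
      exact (hIdisj hik).mono inter_subset_left inter_subset_left
    · intro i
      exact (hImeas i).inter hB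
  -- the shelves
  let S : ℕ → Set ι := fun j => {i | x i < 2 * j + 1 ∧ 2 * (j : ℝ) < x i + a i}
  let T : ℕ → ℝ≥0∞ := fun j => ⨆ k : {k : ι // 2 * (j : ℝ) + 1 < x k + a k}, ENNReal.ofReal (b k)
  have hTle : ∀ j i, i ∈ S j → T j ≤ ENNReal.ofReal (b i) := by
    intro j i hi
    refine iSup_le fun k => ENNReal.ofReal_le_ofReal ?_
    by_cases hki : (k : ι) = i
    · rw [hki]
    · rcases bef_total b e he hki with h | h
      · exfalso
        have h1 := hxle i k h
        have h2 := k.2
        have h3 := hi.1
        linarith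
      · exact bef_le b e h
  have hT1 : ∀ j, T j ≤ 1 := by
    intro j
    refine iSup_le fun k => ?_
    rw [ENNReal.ofReal_le_one]
    exact (hb k).2
  have hTfin : ∀ j, T j ≠ ∞ := fun j => ne_top_of_le_ne_top ENNReal.one_ne_top (hT1 j)
  have hSdisj : ∀ j j' i, i ∈ S j → i ∈ S j' → j = j' := by
    have key : ∀ j j' i, i ∈ S j → i ∈ S j' → j' ≤ j := by
      intro j j' i h1 h2
      by_contra hlt
      push Not at hlt
      have h3 : (j : ℝ) + 1 ≤ j' := by exact_mod_cast hlt
      have h4 := h1.1
      have h5 := h2.2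
      have h6 := (ha i).2
      linarith
    intro j j' i h1 h2
    exact le_antisymm (key j' j i h2 h1) (key j j' i h1 h2)
  -- every shelf of positive height is wide enough
  have hwide : ∀ j, T j ≠ 0 → 1 ≤ ∑' i, ENNReal.ofReal (if i ∈ S j then a i else 0) := by
    intro j hj
    obtain ⟨k, hk⟩ : ∃ k : ι, 2 * (j : ℝ) + 1 < x k + a k := by
      by_contra hcon
      push Not at hcon
      apply hj
      have : IsEmpty {k : ι // 2 * (j : ℝ) + 1 < x k + a k} :=
        ⟨fun k => absurd k.2 (not_lt.mpr (hcon k))⟩
      exact iSup_of_empty _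
    let U : Set ℝ := ⋃ i ∈ {i : ι | bef b e i k ∨ i = k}, I i
    have hUsub : U ⊆ Ico 0 (x k + a k) := by
      intro y hy
      simp only [U, mem_iUnion] at hy
      obtain ⟨i, hi, hy⟩ := hy
      refine ⟨(hx0 i).trans hy.1, hy.2.trans_le ?_⟩
      rcases hi with hi | hi
      · have := hxle k i hi
        have := (ha k).1
        linarith
      · rw [hi]
    have hUvol : volume U = ENNReal.ofReal (x k + a k) := by
      have h1 : volume U = ∑' i : {i : ι | bef b e i k ∨ i = k}, volume (I i) := by
        refine measure_biUnion (Set.to_countable _) ?_ (fun i _ => hImeas i)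
        intro i _ i' _ hii'
        exact hIdisj hii'
      rw [h1, ENNReal.ofReal_add (hx0 k) (ha k).1.le, hxX, ← X_add]
      rw [tsum_subtype {i : ι | bef b e i k ∨ i = k} (fun i => volume (I i))]
      refine tsum_congr fun i => ?_
      by_cases hi : bef b e i k ∨ i = k
      · rw [if_pos hi, Set.indicator_of_mem (show i ∈ {i : ι | bef b e i k ∨ i = k} from hi), hIvol]
      · rw [if_neg hi, Set.indicator_of_notMem (show i ∉ {i : ι | bef b e i k ∨ i = k} from hi)]
    have hUmeas : MeasurableSet U :=
      MeasurableSet.biUnion (Set.to_countable _) (fun i _ => hImeas i)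
    have hnull : volume (Ico 0 (x k + a k) \ U) = 0 := by
      rw [measure_sdiff hUsub hUmeas.nullMeasurableSet, hUvol, Real.volume_Ico, sub_zero, tsub_self]
      rw [hUvol]
      exact ENNReal.ofReal_ne_top
    let B : Set ℝ := Ico (2 * (j : ℝ)) (2 * j + 1)
    have hBsub : B ⊆ Ico 0 (x k + a k) := by
      intro y hy
      refine ⟨?_, hy.2.trans hk⟩
      have h1 : (0 : ℝ) ≤ 2 * (j : ℝ) := by positivity
      exact h1.trans hy.1
    have hB1 : volume B = 1 := by
      simp [B, Real.volume_Ico]
    calc (1 : ℝ≥0∞) = volume B := hB1.symm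
      _ ≤ volume (U ∩ B) + volume (Ico 0 (x k + a k) \ U) := by
          refine (measure_mono ?_).trans (measure_union_le _ _)
          intro y hy
          by_cases hyU : y ∈ U
          · exact Or.inl ⟨hyU, hy⟩
          · exact Or.inr ⟨hBsub hy, hyU⟩
      _ = volume (U ∩ B) := by rw [hnull, add_zero]
      _ ≤ volume (⋃ i, (I i ∩ B)) := by
          refine measure_mono ?_
          rintro y ⟨hyU, hyB⟩
          simp only [U, mem_iUnion] at hyU
          obtain ⟨i, _, hy⟩ := hyU
          exact mem_iUnion.2 ⟨i, hy, hyB⟩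
      _ ≤ ∑' i, volume (I i ∩ B) := measure_iUnion_le _
      _ ≤ ∑' i, ENNReal.ofReal (if i ∈ S j then a i else 0) := by
          refine ENNReal.tsum_le_tsum fun i => ?_
          by_cases hi : i ∈ S j
          · rw [if_pos hi, ← hIvol]
            exact measure_mono inter_subset_left
          · rw [if_neg hi]
            have : I i ∩ B = ∅ := by
              rw [Set.eq_empty_iff_forall_notMem]
              rintro y ⟨hy1, hy2⟩
              exact hi ⟨hy1.1.trans_lt hy2.2, hy2.1.trans_lt hy1.2⟩
            rw [this]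
            simp
  -- the shelves are high enough
  have hhigh : 1 ≤ ∑' j, T j := by
    have h1 : ENNReal.ofReal A ≤ 1 + (∑' j, T j) * 2 := by
      calc ENNReal.ofReal A = ∑' k, ENNReal.ofReal (a k * b k) := hAsum.symm
        _ = ∑' k, ENNReal.ofReal (b k) * volume (I k) := by
            refine tsum_congr fun k => ?_
            rw [hIvol, ← ENNReal.ofReal_mul (hb k).1.le, mul_comm]
        _ ≤ ∑' k, (volume (I k ∩ Ico 0 1) +
              ∑' j : ℕ, T j * volume (I k ∩ Ico (2 * (j : ℝ) + 1) (2 * j + 3))) := by
            refine ENNReal.tsum_le_tsum fun k => ?_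
            have hcov : I k ⊆ (I k ∩ Ico 0 1) ∪
                ⋃ j : ℕ, (I k ∩ Ico (2 * (j : ℝ) + 1) (2 * j + 3)) := by
              intro y hy
              have hy0 : 0 ≤ y := (hx0 k).trans hy.1
              by_cases hy1 : y < 1
              · exact Or.inl ⟨hy, hy0, hy1⟩
              · push Not at hy1
                right
                refine mem_iUnion.2 ⟨⌊(y - 1) / 2⌋₊, hy, ?_, ?_⟩
                · have := Nat.floor_le (show 0 ≤ (y - 1) / 2 by linarith)
                  linarith
                · have := Nat.lt_floor_add_one ((y - 1) / 2)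
                  linarith
            calc ENNReal.ofReal (b k) * volume (I k)
                ≤ ENNReal.ofReal (b k) * (volume (I k ∩ Ico 0 1) +
                    ∑' j : ℕ, volume (I k ∩ Ico (2 * (j : ℝ) + 1) (2 * j + 3))) := by
                  gcongr
                  refine (measure_mono hcov).trans ((measure_union_le _ _).trans ?_)
                  gcongr
                  exact measure_iUnion_le _
              _ = ENNReal.ofReal (b k) * volume (I k ∩ Ico 0 1) +
                    ∑' j : ℕ, ENNReal.ofReal (b k) *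
                      volume (I k ∩ Ico (2 * (j : ℝ) + 1) (2 * j + 3)) := by
                  rw [mul_add, ENNReal.tsum_mul_left]
              _ ≤ _ := by
                  refine add_le_add ?_ (ENNReal.tsum_le_tsum fun j => ?_)
                  · have h2 : ENNReal.ofReal (b k) ≤ 1 := by
                      rw [ENNReal.ofReal_le_one]; exact (hb k).2
                    calc _ ≤ 1 * volume (I k ∩ Ico 0 1) := by gcongr
                      _ = _ := one_mul _
                  · by_cases hne : (I k ∩ Ico (2 * (j : ℝ) + 1) (2 * j + 3)).Nonempty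
                    · obtain ⟨y, hy1, hy2⟩ := hne
                      have h3 : 2 * (j : ℝ) + 1 < x k + a k := hy2.1.trans_lt hy1.2
                      have h4 : ENNReal.ofReal (b k) ≤ T j :=
                        le_iSup (fun k : {k : ι // 2 * (j : ℝ) + 1 < x k + a k} =>
                          ENNReal.ofReal (b k)) ⟨k, h3⟩
                      gcongr
                    · rw [Set.not_nonempty_iff_eq_empty] at hne
                      rw [hne]
                      simp
        _ = (∑' k, volume (I k ∩ Ico 0 1)) +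
              ∑' j : ℕ, T j * ∑' k, volume (I k ∩ Ico (2 * (j : ℝ) + 1) (2 * j + 3)) := by
            rw [ENNReal.tsum_add, ENNReal.tsum_comm]
            congr 1
            refine tsum_congr fun j => ?_
            rw [ENNReal.tsum_mul_left]
        _ ≤ 1 + ∑' j : ℕ, T j * 2 := by
            refine add_le_add ?_ (ENNReal.tsum_le_tsum fun j => ?_)
            · refine (hoverlap _ measurableSet_Ico).trans ?_
              simp [Real.volume_Ico]
            · gcongr
              refine (hoverlap _ measurableSet_Ico).trans ?_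
              rw [Real.volume_Ico]
              have : (2 * (j : ℝ) + 3 - (2 * j + 1)) = 2 := by ring
              rw [this]
              simp
        _ = 1 + (∑' j, T j) * 2 := by rw [ENNReal.tsum_mul_right]
    by_contra hlt
    push Not at hlt
    have hne : ∑' j, T j ≠ ∞ := ne_top_of_lt hlt
    have h2 : ENNReal.ofReal 3 ≤ 1 + (∑' j, T j) * 2 := (ENNReal.ofReal_le_ofReal hA).trans h1
    set s := (∑' j, T j).toReal with hs
    have h3 : ∑' j, T j = ENNReal.ofReal s := (ENNReal.ofReal_toReal hne).symm
    have hs0 : 0 ≤ s := ENNReal.toReal_nonneg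
    rw [h3] at h2 hlt
    have h4 : (1 : ℝ≥0∞) + ENNReal.ofReal s * 2 = ENNReal.ofReal (1 + s * 2) := by
      rw [ENNReal.ofReal_add (by norm_num) (by positivity), ENNReal.ofReal_mul hs0]
      simp
    rw [h4, ENNReal.ofReal_le_ofReal_iff (by positivity)] at h2
    rw [ENNReal.ofReal_lt_one] at hlt
    linarith
  -- positions of the shelves
  obtain ⟨q, hq⟩ := cover_line (fun j : ℕ => (T j).toReal) (fun j => ENNReal.toReal_nonneg) (by
    simpa only [ENNReal.ofReal_toReal (hTfin _)] using hhigh)
  -- positions inside the shelves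
  have hp : ∀ j, T j ≠ 0 → ∃ p : ι → ℝ, ∀ y ∈ Icc (0 : ℝ) 1, ∃ i, i ∈ S j ∧ p i ≤ y ∧
      y ≤ p i + a i := by
    intro j hj
    obtain ⟨p, hp⟩ := cover_line (fun i : ι => if i ∈ S j then a i else 0) (by
      intro i
      split_ifs
      · exact (ha i).1.le
      · exact le_rfl) (hwide j hj)
    refine ⟨p, fun y hy => ?_⟩
    obtain ⟨i, hi, h1, h2⟩ := hp y hy
    by_cases hiS : i ∈ S j
    · simp only [if_pos hiS] at h2
      exact ⟨i, hiS, h1, h2⟩
    · simp [hiS] at hi
  choose! p hp using hp
  refine ⟨fun i => if h : ∃ j, i ∈ S j then (p h.choose i, q h.choose) else 0, ?_⟩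
  rintro ⟨u, v⟩ ⟨hu, hv⟩
  obtain ⟨j, hj, hj1, hj2⟩ := hq v hv
  have hTj : T j ≠ 0 := by
    intro h0
    simp [h0] at hj
  obtain ⟨i, hi, hi1, hi2⟩ := hp j hTj u hu
  have hex : ∃ j, i ∈ S j := ⟨j, hi⟩
  have hch : hex.choose = j := hSdisj _ _ i hex.choose_spec hi
  refine mem_iUnion.2 ⟨i, ?_⟩
  simp only [dif_pos hex, hch]
  refine ⟨⟨hi1, hi2⟩, ⟨hj1, hj2.trans ?_⟩⟩
  have h1 := hTle j i hi
  have h2 : (T j).toReal ≤ b i := by
    have := (ENNReal.toReal_le_toReal (hTfin j) ENNReal.ofReal_ne_top).2 h1
    rwa [ENNReal.toReal_ofReal (hb i).1.le] at this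
  show q j + (T j).toReal ≤ q j + b i
  linarith

end Main

end Pool.Agent.Results.MP_6800d9_co.MoserCovering
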